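import Pool.Agent.SharpPoly.Fam

/-!
Counting the degrees in which uniqueness fails.
-/

set_option autoImplicit false

open Finset

namespace Pool.Agent.SharpPoly

/-- The new residue classes. -/
def newClass (d : ℕ) : Bool :=
  d % 36 == 29 || d % 252 == 233 || d % 360 == 197 || d % 396 == 233 || d % 420 == 237 ||
  d % 420 == 377 || d % 540 == 377 || d % 660 == 189 || d % 660 == 629 || d % 924 == 65 ||
  d % 924 == 485 || d % 924 == 681

lemma fail_newClass {d : ℕ} (h : newClass d = true) : UniqFails d := by
  unfold newClass at h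
  simp only [Bool.or_eq_true, beq_iff_eq] at h
  rcases h with ((((((((((h | h) | h) | h) | h) | h) | h) | h) | h) | h) | h) | h
  · exact fail_29_36 h
  · exact fail_233_252 h
  · exact fail_197_360 h
  · exact fail_233_396 h
  · exact fail_237_420 h
  · exact fail_377_420 h
  · exact fail_377_540 h
  · exact fail_189_660 h
  · exact fail_629_660 h
  · exact fail_65_924 h
  · exact fail_485_924 h
  · exact fail_681_924 h

/-- The number of new members of the `i`-th block of length `12`. -/
def blk (i : ℕ) : ℕ :=
  (if newClass (12 * i + 5) then 1 else 0) + (if newClass (12 * i + 9) then 1 else 0)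

/-- The sum of `blk` over `[lo, lo + len)`, by bisection. -/
def bis : ℕ → ℕ → ℕ → ℕ
  | 0, lo, len => if len == 0 then 0 else blk lo
  | (n + 1), lo, len => bis n lo (len / 2) + bis n (lo + len / 2) (len - len / 2)

lemma bis_eq : ∀ (n lo len : ℕ), len ≤ 2 ^ n →
    bis n lo len = ∑ i ∈ range len, blk (lo + i)
  | 0, lo, len, h => by
    have h' : len = 0 ∨ len = 1 := by
      rw [pow_zero] at h
      omega
    rcases h' with rfl | rfl
    · simp [bis]
    · simp [bis]
  | (n + 1), lo, len, h => by
    have h2 : 2 ^ (n + 1) = 2 * 2 ^ n := by ring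
    rw [bis, bis_eq n lo (len / 2) (by omega),
      bis_eq n (lo + len / 2) (len - len / 2) (by omega)]
    have h1 : len = len / 2 + (len - len / 2) := by omega
    conv_rhs => rw [h1, Finset.sum_range_add]
    simp only [add_assoc]

theorem bis_period : bis 13 0 6930 = 3662 := by decide +kernel

lemma blk_add (i : ℕ) : blk (i + 6930) = blk i := by
  have h : ∀ c, newClass (12 * (i + 6930) + c) = newClass (12 * i + c) := by
    intro c
    unfold newClass
    have e : ∀ N k : ℕ, 83160 = N * k → (12 * (i + 6930) + c) % N = (12 * i + c) % N := by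
      intro N k hk
      have : 12 * (i + 6930) + c = 12 * i + c + N * k := by omega
      rw [this, Nat.add_mul_mod_self_left]
    rw [e 36 2310 rfl, e 252 330 rfl, e 360 231 rfl, e 396 210 rfl, e 420 198 rfl,
      e 540 154 rfl, e 660 126 rfl, e 924 90 rfl]
  unfold blk
  rw [h 5, h 9]

lemma sum_blk (q : ℕ) : ∑ i ∈ range (6930 * q), blk i = 3662 * q := by
  have h0 : ∑ i ∈ range 6930, blk i = 3662 := by
    have h1 := bis_eq 13 0 6930 (by norm_num)
    rw [bis_period] at h1
    rw [h1]
    simp only [zero_add]
  have hp : ∀ q i, blk (6930 * q + i) = blk i := by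
    intro q
    induction q with
    | zero => intro i; simp
    | succ q ih =>
      intro i
      have : 6930 * (q + 1) + i = 6930 * q + i + 6930 := by ring
      rw [this, blk_add, ih]
  induction q with
  | zero => simp
  | succ q ih =>
    rw [mul_add, mul_one, Finset.sum_range_add, ih, Finset.sum_congr rfl fun i _ => hp q i, h0]
    ring

open Classical in
/-- The number of odd `d < X` in which uniqueness fails. -/
noncomputable def cnt (X : ℕ) : ℕ := ((range X).filter fun d => Odd d ∧ UniqFails d).card

lemma cnt_step {n : ℕ} (hn : 1 ≤ n) : cnt (12 * n) + (4 + blk n) ≤ cnt (12 * (n + 1)) := by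
  classical
  unfold cnt
  rw [Finset.card_filter, Finset.card_filter, mul_add, Finset.sum_range_add]
  apply Nat.add_le_add_left
  have h1 : Odd (12 * n + 1) ∧ UniqFails (12 * n + 1) :=
    ⟨⟨6 * n, by ring⟩, fail_1_6 (by omega) (by omega)⟩
  have h3 : Odd (12 * n + 3) ∧ UniqFails (12 * n + 3) :=
    ⟨⟨6 * n + 1, by ring⟩, fail_3_4 (by omega) (by omega)⟩
  have h7 : Odd (12 * n + 7) ∧ UniqFails (12 * n + 7) :=
    ⟨⟨6 * n + 3, by ring⟩, fail_3_4 (by omega) (by omega)⟩
  have h11 : Odd (12 * n + 11) ∧ UniqFails (12 * n + 11) :=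
    ⟨⟨6 * n + 5, by ring⟩, fail_3_4 (by omega) (by omega)⟩
  have h5 : (if newClass (12 * n + 5) then 1 else 0) ≤
      if Odd (12 * n + 5) ∧ UniqFails (12 * n + 5) then 1 else 0 := by
    split_ifs with h h' h'
    · exact le_rfl
    · exact absurd ⟨⟨6 * n + 2, by ring⟩, fail_newClass h⟩ h'
    · exact zero_le_one
    · exact le_rfl
  have h9 : (if newClass (12 * n + 9) then 1 else 0) ≤
      if Odd (12 * n + 9) ∧ UniqFails (12 * n + 9) then 1 else 0 := by
    split_ifs with h h' h'
    · exact le_rfl
    · exact absurd ⟨⟨6 * n + 4, by ring⟩, fail_newClass h⟩ h'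
    · exact zero_le_one
    · exact le_rfl
  unfold blk
  simp only [mul_one, Finset.sum_range_succ, Finset.sum_range_zero]
  rw [if_pos h1, if_pos h3, if_pos h7, if_pos h11]
  generalize (if Odd (12 * n + 5) ∧ UniqFails (12 * n + 5) then 1 else 0) = u5 at *
  generalize (if Odd (12 * n + 9) ∧ UniqFails (12 * n + 9) then 1 else 0) = u9 at *
  generalize (if newClass (12 * n + 5) then 1 else 0) = v5 at *
  generalize (if newClass (12 * n + 9) then 1 else 0) = v9 at *
  omega

lemma cnt_one : 2 ≤ cnt 12 := by
  classical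
  unfold cnt
  have h : ({7, 11} : Finset ℕ) ⊆ (range 12).filter fun d => Odd d ∧ UniqFails d := by
    intro d hd
    simp only [Finset.mem_insert, Finset.mem_singleton] at hd
    rw [Finset.mem_filter, Finset.mem_range]
    rcases hd with rfl | rfl
    · exact ⟨by norm_num, ⟨3, by norm_num⟩, fail_3_4 (by norm_num) (by norm_num)⟩
    · exact ⟨by norm_num, ⟨5, by norm_num⟩, fail_3_4 (by norm_num) (by norm_num)⟩
  calc 2 = ({7, 11} : Finset ℕ).card := rfl
    _ ≤ _ := Finset.card_le_card h

lemma cnt_lower : ∀ n, 4 * n + ∑ i ∈ range n, blk i ≤ cnt (12 * n) + 2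
  | 0 => by simp
  | 1 => by
    have h := cnt_one
    have h2 : blk 0 = 0 := by decide
    rw [Finset.sum_range_one, h2]
    simpa using h
  | (n + 2) => by
    have h := cnt_lower (n + 1)
    have h2 := cnt_step (n := n + 1) (by omega)
    rw [Finset.sum_range_succ]
    have h3 : 12 * (n + 2) = 12 * (n + 1 + 1) := by ring
    rw [h3]
    omega

lemma cnt_mono {X Y : ℕ} (h : X ≤ Y) : cnt X ≤ cnt Y := by
  classical
  unfold cnt
  exact Finset.card_le_card (Finset.filter_subset_filter _ (Finset.range_mono h))

/-- The density of the degrees in which uniqueness fails. -/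
theorem cnt_density (X : ℕ) : 31382 * X ≤ 83160 * (cnt X + 31384) := by
  have h1 := cnt_lower (6930 * (X / 83160))
  rw [sum_blk] at h1
  have h2 : cnt (12 * (6930 * (X / 83160))) ≤ cnt X := cnt_mono (by omega)
  omega

end Pool.Agent.SharpPoly
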