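import Pool.Agent.SharpPoly.Modif

/-!
Families of degrees in which uniqueness fails.
-/

set_option autoImplicit false

namespace Pool.Agent.SharpPoly

/-- The classical family `d = 3 mod 4`. -/
lemma fail_3_4 {d : ℕ} (h : d % 4 = 3) (h3 : 3 < d) : UniqFails d := by
  obtain ⟨j, rfl⟩ : ∃ j, d = 4 * j + 7 := ⟨(d - 7) / 4, by omega⟩
  refine uniqFails_of (a := 2 * j + 3) (b := 1) (m := 2 * j + 2) (f := 2 * j) ⟨j + 1, by ring⟩
    ⟨j + 1, by ring⟩ ⟨j, by ring⟩ le_rfl (by ring) ?_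
  push_cast
  ring

/-- The classical family `d = 1 mod 6`. -/
lemma fail_1_6 {d : ℕ} (h : d % 6 = 1) (h1 : 1 < d) : UniqFails d := by
  obtain ⟨j, rfl⟩ : ∃ j, d = 6 * j + 7 := ⟨(d - 7) / 6, by omega⟩
  refine uniqFails_of (a := 2 * j + 1) (b := 2 * j + 1) (m := 4) (f := 0) ⟨j, by ring⟩
    ⟨2, rfl⟩ ⟨0, rfl⟩ (by norm_num) (by ring) ?_
  push_cast
  ring

/-- A family of residue classes. -/
lemma fail_param {p q k d : ℕ} (hp : Odd p) (hq : Odd q) (hk : Odd k) (hd : Odd d)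
    (hpq : 2 * p < q) (h : (q + p) * d + 4 * q = 3 * q * (q - p) * k + 2 * p) : UniqFails d := by
  obtain ⟨s, rfl⟩ : ∃ s, q = 2 * p + s := ⟨q - 2 * p, by omega⟩
  have hs : 0 < s := by omega
  have e0 : 2 * p + s - p = p + s := by omega
  rw [e0] at h
  have hp0 : 0 < p := hp.pos
  have hk0 : 0 < k := hk.pos
  have hpk : 0 < p * k := Nat.mul_pos hp0 hk0
  have hsodd : Odd s := by
    rcases Nat.even_or_odd s with h1 | h1
    · exfalso
      have h2 : Even (2 * p + s) := (even_two_mul p).add h1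
      exact (Nat.not_even_iff_odd.2 hq) h2
    · exact h1
  have h' : ((3 * p + s : ℤ)) * d + 4 * (2 * p + s) = 3 * (2 * p + s) * (p + s) * k + 2 * p := by
    have := congrArg (fun z : ℕ => (z : ℤ)) h
    push_cast at this
    linarith
  -- the number `n`
  have hP : (0 : ℤ) < 3 * p + s := by positivity
  have hnZ : (3 * p + s : ℤ) * ((2 * p + 3 * s) * k - 2 - d) = 2 * s * (p * k + 1) := by
    linear_combination (-1 : ℤ) * h'
  have hn0 : (0 : ℤ) < (2 * p + 3 * s) * k - 2 - d := by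
    have h1 : (0 : ℤ) < 2 * s * (p * k + 1) := by positivity
    rw [← hnZ] at h1
    exact pos_of_mul_pos_right h1 hP.le
  obtain ⟨n, hn⟩ : ∃ n : ℕ, n + d + 2 = (2 * p + 3 * s) * k := by
    refine ⟨(2 * p + 3 * s) * k - 2 - d, ?_⟩
    have : d + 2 ≤ (2 * p + 3 * s) * k := by
      zify
      linarith
    omega
  have hnZ' : (3 * p + s : ℤ) * n = 2 * s * (p * k + 1) := by
    rw [← hnZ]
    congr 1
    have := congrArg (fun z : ℕ => (z : ℤ)) hn
    push_cast at this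
    linarith
  have hnpos : 0 < n := by
    rcases Nat.eq_zero_or_pos n with h1 | h1
    · exfalso
      subst h1
      have : (0 : ℤ) < 2 * s * (p * k + 1) := by positivity
      rw [← hnZ'] at this
      simp at this
    · exact h1
  have hnle : n ≤ s * k := by
    have h1 : (3 * p + s : ℤ) * n ≤ (3 * p + s) * (s * k) := by
      rw [hnZ']
      have h2 : (1 : ℤ) ≤ p * k := by exact_mod_cast hpk
      have h3 : (1 : ℤ) ≤ s * k := by exact_mod_cast Nat.mul_pos hs hk0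
      have h4 : (0 : ℤ) < s := by exact_mod_cast hs
      nlinarith
    have h2 := le_of_mul_le_mul_left h1 hP
    exact_mod_cast h2
  have hnev : Even n := by
    have h1 : Odd ((2 * p + 3 * s) * k) := by
      apply Odd.mul _ hk
      exact (even_two_mul p).add_odd (Odd.mul (by decide) hsodd)
    rw [← hn] at h1
    have h2 : Even (n + (d + 2)) ∨ Odd (n + (d + 2)) := Nat.even_or_odd _
    by_contra hne
    rw [Nat.not_even_iff_odd] at hne
    have h3 : Odd (d + 2) := hd.add_even even_two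
    have h4 : Even (n + (d + 2)) := hne.add_odd h3
    rw [← add_assoc] at h4
    exact (Nat.not_even_iff_odd.2 h1) h4
  have hpkodd : Odd (p * k) := hp.mul hk
  have hpsk : 2 ≤ (p + s) * k := by nlinarith
  obtain ⟨f, hf⟩ : ∃ f, p * k = f + 1 := ⟨p * k - 1, by omega⟩
  obtain ⟨a, ha⟩ : ∃ a, (p + s) * k = a + 1 := ⟨(p + s) * k - 1, by omega⟩
  obtain ⟨b, hb⟩ : ∃ b, s * k = n + b := ⟨s * k - n, by omega⟩
  have hfev : Even f := by
    rw [hf] at hpkodd
    by_contra hne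
    rw [Nat.not_even_iff_odd] at hne
    exact (Nat.not_even_iff_odd.2 hpkodd) (hne.add_odd odd_one)
  have haodd : Odd a := by
    have h1 : Even ((p + s) * k) := (hp.add_odd hsodd).mul_right k
    rw [ha] at h1
    by_contra hne
    rw [Nat.not_odd_iff_even] at hne
    exact (Nat.not_even_iff_odd.2 (hne.add_odd odd_one)) h1
  have hfn : f + 2 ≤ f + n := by
    rcases hnev with ⟨r, hr⟩
    omega
  have hdsum : d = a + 2 * b + (f + n) := by
    have h1 : (2 * p + 3 * s) * k = p * k + (p + s) * k + 2 * (s * k) := by ring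
    rw [h1, hf, ha, hb] at hn
    omega
  refine uniqFails_of haodd (hfev.add hnev) hfev hfn hdsum ?_
  have hfZ : (f : ℤ) = p * k - 1 := by
    have := congrArg (fun z : ℕ => (z : ℤ)) hf
    push_cast at this
    linarith
  have haZ : (a : ℤ) = (p + s) * k - 1 := by
    have := congrArg (fun z : ℕ => (z : ℤ)) ha
    push_cast at this
    linarith
  have hdZ : (d : ℤ) = (2 * p + 3 * s) * k - 2 - n := by
    have := congrArg (fun z : ℕ => (z : ℤ)) hn
    push_cast at this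
    linarith
  push_cast
  rw [hdZ, hfZ, haZ]
  have hP2 : (3 * p + s : ℤ) ^ 2 ≠ 0 := by positivity
  apply mul_left_cancel₀ hP2
  have e1 : (3 * p + s : ℤ) * (2 * s * k - n) = 2 * s * ((2 * p + s) * k - 1) := by
    linear_combination (-1 : ℤ) * hnZ'
  have e2 : (3 * p + s : ℤ) * ((4 * p + 4 * s) * k - 4 - n) =
      2 * (2 * p + s) * ((3 * p + 2 * s) * k - 3) := by
    linear_combination (-1 : ℤ) * hnZ'
  have e3 : (3 * p + s : ℤ) * (2 * p * k - 2 + n) = 2 * p * ((3 * p + 2 * s) * k - 3) := by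
    linear_combination hnZ'
  calc (3 * p + s : ℤ) ^ 2 * ((((2 * p + 3 * s) * k - 2 - n : ℤ) ^ 2 -
        (p * k - 1 + ((p + s) * k - 1)) ^ 2) * ((p * k - 1 + 1) * (p * k - 1 + 2)))
      = ((3 * p + s : ℤ) * (2 * s * k - n)) * ((3 * p + s : ℤ) * ((4 * p + 4 * s) * k - 4 - n)) *
          (p * k * (p * k + 1)) := by ring
    _ = ((3 * p + s : ℤ) * n) * ((3 * p + s : ℤ) * (2 * p * k - 2 + n)) *
          (((2 * p + s) * k - 1) * ((2 * p + s) * k)) := by
        rw [e1, e2, e3, hnZ']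
        ring
    _ = _ := by ring

lemma fail_29_36 {d : ℕ} (h : d % 36 = 29) : UniqFails d := by
  obtain ⟨j, rfl⟩ : ∃ j, d = 36 * j + 29 := ⟨d / 36, by omega⟩
  refine uniqFails_of (a := 16 * j + 13) (b := 4 * j + 3) (m := 12 * j + 10)
    (f := 8 * j + 6) ⟨8 * j + 6, by ring⟩ ⟨6 * j + 5, by ring⟩
    ⟨4 * j + 3, by ring⟩ (by omega) (by ring) ?_
  push_cast
  ring

lemma fail_233_252 {d : ℕ} (h : d % 252 = 233) : UniqFails d := by
  obtain ⟨j, rfl⟩ : ∃ j, d = 252 * j + 233 := ⟨d / 252, by omega⟩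
  refine uniqFails_of (a := 96 * j + 89) (b := 60 * j + 55) (m := 36 * j + 34)
    (f := 16 * j + 14) ⟨48 * j + 44, by ring⟩ ⟨18 * j + 17, by ring⟩
    ⟨8 * j + 7, by ring⟩ (by omega) (by ring) ?_
  push_cast
  ring

lemma fail_197_360 {d : ℕ} (h : d % 360 = 197) : UniqFails d := by
  obtain ⟨j, rfl⟩ : ∃ j, d = 360 * j + 197 := ⟨d / 360, by omega⟩
  refine uniqFails_of (a := 10 * j + 5) (b := 70 * j + 37) (m := 210 * j + 118)
    (f := 14 * j + 6) ⟨5 * j + 2, by ring⟩ ⟨105 * j + 59, by ring⟩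
    ⟨7 * j + 3, by ring⟩ (by omega) (by ring) ?_
  push_cast
  ring

lemma fail_233_396 {d : ℕ} (h : d % 396 = 233) : UniqFails d := by
  obtain ⟨j, rfl⟩ : ∃ j, d = 396 * j + 233 := ⟨d / 396, by omega⟩
  refine uniqFails_of (a := 192 * j + 113) (b := 12 * j + 7) (m := 180 * j + 106)
    (f := 160 * j + 94) ⟨96 * j + 56, by ring⟩ ⟨90 * j + 53, by ring⟩
    ⟨80 * j + 47, by ring⟩ (by omega) (by ring) ?_
  push_cast
  ring

lemma fail_237_420 {d : ℕ} (h : d % 420 = 237) : UniqFails d := by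
  obtain ⟨j, rfl⟩ : ∃ j, d = 420 * j + 237 := ⟨d / 420, by omega⟩
  refine uniqFails_of (a := 180 * j + 101) (b := 60 * j + 35) (m := 120 * j + 66)
    (f := 72 * j + 38) ⟨90 * j + 50, by ring⟩ ⟨60 * j + 33, by ring⟩
    ⟨36 * j + 19, by ring⟩ (by omega) (by ring) ?_
  push_cast
  ring

lemma fail_377_420 {d : ℕ} (h : d % 420 = 377) : UniqFails d := by
  obtain ⟨j, rfl⟩ : ∃ j, d = 420 * j + 377 := ⟨d / 420, by omega⟩
  refine uniqFails_of (a := 180 * j + 161) (b := 60 * j + 55) (m := 120 * j + 106)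
    (f := 72 * j + 62) ⟨90 * j + 80, by ring⟩ ⟨60 * j + 53, by ring⟩
    ⟨36 * j + 31, by ring⟩ (by omega) (by ring) ?_
  push_cast
  ring

lemma fail_377_540 {d : ℕ} (h : d % 540 = 377) : UniqFails d := by
  obtain ⟨j, rfl⟩ : ∃ j, d = 540 * j + 377 := ⟨d / 540, by omega⟩
  refine uniqFails_of (a := 260 * j + 181) (b := 20 * j + 15) (m := 240 * j + 166)
    (f := 208 * j + 142) ⟨130 * j + 90, by ring⟩ ⟨120 * j + 83, by ring⟩
    ⟨104 * j + 71, by ring⟩ (by omega) (by ring) ?_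
  push_cast
  ring

lemma fail_189_660 {d : ℕ} (h : d % 660 = 189) : UniqFails d := by
  obtain ⟨j, rfl⟩ : ∃ j, d = 660 * j + 189 := ⟨d / 660, by omega⟩
  refine uniqFails_of (a := 240 * j + 69) (b := 180 * j + 51) (m := 60 * j + 18)
    (f := 24 * j + 6) ⟨120 * j + 34, by ring⟩ ⟨30 * j + 9, by ring⟩
    ⟨12 * j + 3, by ring⟩ (by omega) (by ring) ?_
  push_cast
  ring

lemma fail_629_660 {d : ℕ} (h : d % 660 = 629) : UniqFails d := by
  obtain ⟨j, rfl⟩ : ∃ j, d = 660 * j + 629 := ⟨d / 660, by omega⟩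
  refine uniqFails_of (a := 240 * j + 229) (b := 180 * j + 171) (m := 60 * j + 58)
    (f := 24 * j + 22) ⟨120 * j + 114, by ring⟩ ⟨30 * j + 29, by ring⟩
    ⟨12 * j + 11, by ring⟩ (by omega) (by ring) ?_
  push_cast
  ring

lemma fail_65_924 {d : ℕ} (h : d % 924 = 65) : UniqFails d := by
  obtain ⟨j, rfl⟩ : ∃ j, d = 924 * j + 65 := ⟨d / 924, by omega⟩
  refine uniqFails_of (a := 420 * j + 29) (b := 84 * j + 7) (m := 336 * j + 22)
    (f := 240 * j + 14) ⟨210 * j + 14, by ring⟩ ⟨168 * j + 11, by ring⟩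
    ⟨120 * j + 7, by ring⟩ (by omega) (by ring) ?_
  push_cast
  ring

lemma fail_485_924 {d : ℕ} (h : d % 924 = 485) : UniqFails d := by
  obtain ⟨j, rfl⟩ : ∃ j, d = 924 * j + 485 := ⟨d / 924, by omega⟩
  refine uniqFails_of (a := 14 * j + 7) (b := 140 * j + 72) (m := 630 * j + 334)
    (f := 30 * j + 14) ⟨7 * j + 3, by ring⟩ ⟨315 * j + 167, by ring⟩
    ⟨15 * j + 7, by ring⟩ (by omega) (by ring) ?_
  push_cast
  ring

lemma fail_681_924 {d : ℕ} (h : d % 924 = 681) : UniqFails d := by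
  obtain ⟨j, rfl⟩ : ∃ j, d = 924 * j + 681 := ⟨d / 924, by omega⟩
  refine uniqFails_of (a := 420 * j + 309) (b := 84 * j + 63) (m := 336 * j + 246)
    (f := 240 * j + 174) ⟨210 * j + 154, by ring⟩ ⟨168 * j + 123, by ring⟩
    ⟨120 * j + 87, by ring⟩ (by omega) (by ring) ?_
  push_cast
  ring

end Pool.Agent.SharpPoly
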