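import Mathlib

/-!
Coefficients of the power sums of the roots of `t ^ 2 = x t + y`.
-/

set_option autoImplicit false

open Finset

namespace Pool.Agent.SharpPoly

/-- The coefficient of `x ^ (n - 2 k) y ^ k` in the `n`-th power sum. -/
def lc : ℕ → ℕ → ℕ
  | 0, 0 => 2
  | 0, (_ + 1) => 0
  | 1, 0 => 1
  | 1, (_ + 1) => 0
  | (n + 2), 0 => lc (n + 1) 0
  | (n + 2), (k + 1) => lc (n + 1) (k + 1) + lc n k

lemma lc_eq_zero : ∀ (n k : ℕ), n < 2 * k → lc n k = 0
  | 0, 0, h => by omega
  | 0, (k + 1), _ => rfl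
  | 1, 0, h => by omega
  | 1, (k + 1), _ => rfl
  | (n + 2), 0, h => by omega
  | (n + 2), (k + 1), h => by
    rw [lc, lc_eq_zero (n + 1) (k + 1) (by omega), lc_eq_zero n k (by omega)]

lemma lc_zero : ∀ n : ℕ, lc (n + 1) 0 = 1
  | 0 => rfl
  | (n + 1) => by rw [lc]; exact lc_zero n

/-- The closed form. -/
lemma lc_closed : ∀ (n k j : ℕ), n = 2 * k + j → 0 < n →
    lc n k * (k.factorial * j.factorial) = n * (k + j - 1).factorial
  | 0, _, _, _, h0 => by omega
  | 1, 0, j, h, _ => by
    obtain rfl : j = 1 := by omega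
    rfl
  | 1, (k + 1), j, h, _ => by omega
  | (n + 2), 0, j, h, _ => by
    obtain rfl : j = n + 2 := by omega
    rw [lc_zero]
    simp [Nat.factorial_succ]
  | (n + 2), (k + 1), j, h, _ => by
    have hn : n = 2 * k + j := by omega
    rw [lc]
    rcases Nat.eq_zero_or_pos j with rfl | hj
    · rw [lc_eq_zero (n + 1) (k + 1) (by omega), zero_add]
      rcases Nat.eq_zero_or_pos k with rfl | hk
      · obtain rfl : n = 0 := by omega
        rfl
      · have ih := lc_closed n k 0 hn (by omega)
        obtain ⟨l, rfl⟩ : ∃ l, k = l + 1 := ⟨k - 1, by omega⟩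
        have e1 : l + 1 + 0 - 1 = l := by omega
        have e2 : l + 1 + 1 + 0 - 1 = l + 1 := by omega
        rw [e1] at ih
        rw [e2]
        have e3 : (l + 1 + 1).factorial = (l + 2) * (l + 1).factorial := Nat.factorial_succ _
        have e4 : (l + 1).factorial = (l + 1) * l.factorial := Nat.factorial_succ _
        calc lc n (l + 1) * ((l + 1 + 1).factorial * Nat.factorial 0)
            = (l + 2) * (lc n (l + 1) * ((l + 1).factorial * Nat.factorial 0)) := by rw [e3]; ring
          _ = (l + 2) * (n * l.factorial) := by rw [ih]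
          _ = (n + 2) * ((l + 1) * l.factorial) := by
            have : n = 2 * (l + 1) := by omega
            rw [this]; ring
          _ = (n + 2) * (l + 1).factorial := by rw [e4]
    · obtain ⟨i, rfl⟩ : ∃ i, j = i + 1 := ⟨j - 1, by omega⟩
      have ih1 := lc_closed (n + 1) (k + 1) i (by omega) (by omega)
      have ih2 := lc_closed n k (i + 1) hn (by omega)
      have e1 : k + 1 + i - 1 = k + i := by omega
      have e2 : k + (i + 1) - 1 = k + i := by omega
      have e3 : k + 1 + (i + 1) - 1 = k + i + 1 := by omega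
      rw [e1] at ih1
      rw [e2] at ih2
      rw [e3]
      have f1 : (i + 1).factorial = (i + 1) * i.factorial := Nat.factorial_succ _
      have f2 : (k + 1).factorial = (k + 1) * k.factorial := Nat.factorial_succ _
      have f3 : (k + i + 1).factorial = (k + i + 1) * (k + i).factorial := Nat.factorial_succ _
      calc (lc (n + 1) (k + 1) + lc n k) * ((k + 1).factorial * (i + 1).factorial)
          = (i + 1) * (lc (n + 1) (k + 1) * ((k + 1).factorial * i.factorial)) +
            (k + 1) * (lc n k * (k.factorial * (i + 1).factorial)) := by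
            rw [f1, f2]; ring
        _ = (i + 1) * ((n + 1) * (k + i).factorial) + (k + 1) * (n * (k + i).factorial) := by
            rw [ih1, ih2]
        _ = (n + 2) * ((k + i + 1) * (k + i).factorial) := by
            rw [hn]; ring
        _ = (n + 2) * (k + i + 1).factorial := by rw [f3]

lemma lc_pos {n k : ℕ} (h : 2 * k ≤ n) (hn : 0 < n) : 0 < lc n k := by
  have h1 := lc_closed n k (n - 2 * k) (by omega) hn
  have h2 : 0 < n * (k + (n - 2 * k) - 1).factorial := Nat.mul_pos hn (Nat.factorial_pos _)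
  rw [← h1] at h2
  exact Nat.pos_of_mul_pos_right h2

/-- The ratio of consecutive coefficients. -/
lemma lc_ratio {n k j : ℕ} (h : n = 2 * k + 2 + j) :
    lc n (k + 1) * ((k + 1) * (k + 1 + j)) = lc n k * ((j + 2) * (j + 1)) := by
  have h1 := lc_closed n (k + 1) j (by omega) (by omega)
  have h2 := lc_closed n k (j + 2) (by omega) (by omega)
  have e1 : k + 1 + j - 1 = k + j := by omega
  have e2 : k + (j + 2) - 1 = k + j + 1 := by omega
  rw [e1] at h1
  rw [e2] at h2
  have f1 : (k + 1).factorial = (k + 1) * k.factorial := Nat.factorial_succ _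
  have f2 : (j + 2).factorial = (j + 2) * ((j + 1) * j.factorial) := by
    rw [Nat.factorial_succ, Nat.factorial_succ]
  have f3 : (k + j + 1).factorial = (k + j + 1) * (k + j).factorial := Nat.factorial_succ _
  rw [f1] at h1
  rw [f2, f3] at h2
  have h3 : 0 < k.factorial * j.factorial :=
    Nat.mul_pos (Nat.factorial_pos _) (Nat.factorial_pos _)
  apply Nat.eq_of_mul_eq_mul_right h3
  calc lc n (k + 1) * ((k + 1) * (k + 1 + j)) * (k.factorial * j.factorial)
      = (k + j + 1) * (lc n (k + 1) * ((k + 1) * k.factorial * j.factorial)) := by ring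
    _ = (k + j + 1) * (n * (k + j).factorial) := by rw [h1]
    _ = n * ((k + j + 1) * (k + j).factorial) := by ring
    _ = lc n k * (k.factorial * ((j + 2) * ((j + 1) * j.factorial))) := by rw [h2]
    _ = _ := by ring

/-- The `n`-th power sum of the roots of `t ^ 2 = x t + y`. -/
noncomputable def SS (n : ℕ) (x y : ℝ) : ℝ :=
  ∑ k ∈ range (n + 1), (lc n k : ℝ) * (x ^ (n - 2 * k) * y ^ k)

lemma SS_rec (n : ℕ) (x y : ℝ) : SS (n + 2) x y = x * SS (n + 1) x y + y * SS n x y := by
  have e1 : SS (n + 1) x y = (lc (n + 1) 0 : ℝ) * x ^ (n + 1) +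
      ∑ k ∈ range (n + 2), (lc (n + 1) (k + 1) : ℝ) * (x ^ (n + 1 - 2 * (k + 1)) * y ^ (k + 1)) := by
    unfold SS
    rw [Finset.sum_range_succ' _ (n + 1), Finset.sum_range_succ _ (n + 1),
      lc_eq_zero (n + 1) (n + 1 + 1) (by omega)]
    simp
    ring
  have e2 : SS n x y = ∑ k ∈ range (n + 2), (lc n k : ℝ) * (x ^ (n - 2 * k) * y ^ k) := by
    unfold SS
    rw [Finset.sum_range_succ _ (n + 1), lc_eq_zero n (n + 1) (by omega)]
    simp
  have e3 : SS (n + 2) x y = (lc (n + 2) 0 : ℝ) * x ^ (n + 2) +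
      ∑ k ∈ range (n + 2), (lc (n + 2) (k + 1) : ℝ) *
        (x ^ (n + 2 - 2 * (k + 1)) * y ^ (k + 1)) := by
    unfold SS
    rw [Finset.sum_range_succ' _ (n + 2)]
    simp
    ring
  rw [e3, e1, e2, mul_add, Finset.mul_sum, Finset.mul_sum, add_assoc, ← Finset.sum_add_distrib]
  have e4 : lc (n + 2) 0 = lc (n + 1) 0 := rfl
  rw [e4]
  congr 1
  · ring
  · refine Finset.sum_congr rfl fun k _ => ?_
    have e5 : lc (n + 2) (k + 1) = lc (n + 1) (k + 1) + lc n k := rfl
    rw [e5]
    have e6 : n + 2 - 2 * (k + 1) = n - 2 * k := by omega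
    rw [e6]
    rcases Nat.lt_or_ge (n + 1) (2 * (k + 1)) with h | h
    · rw [lc_eq_zero (n + 1) (k + 1) h]
      push_cast
      ring
    · have e7 : n - 2 * k = (n + 1 - 2 * (k + 1)) + 1 := by omega
      rw [e7]
      push_cast
      ring

lemma SS_eq {x y u v : ℝ} (hs : u + v = x) (hu : u ^ 2 = x * u + y) (hv : v ^ 2 = x * v + y) :
    ∀ n : ℕ, SS n x y = u ^ n + v ^ n
  | 0 => by
    simp [SS, lc]
    norm_num
  | 1 => by
    simp [SS, lc, Finset.sum_range_succ, hs]
  | (n + 2) => by
    rw [SS_rec, SS_eq hs hu hv (n + 1), SS_eq hs hu hv n, pow_add u n 2, pow_add v n 2, hu, hv]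
    ring

lemma SS_line {x y : ℝ} (h : x + y = 1) (n : ℕ) : SS n x y = 1 + (-y) ^ n := by
  have := SS_eq (x := x) (y := y) (u := 1) (v := -y) (by linarith) (by linarith)
    (by have : x = 1 - y := by linarith
        rw [this]; ring) n
  rw [this, one_pow]

end Pool.Agent.SharpPoly
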