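import Pool.Agent.SharpPoly.Luc

/-!
The ratio of the coefficients of two power sums has its minimum at the two places where it is
stationary.
-/

set_option autoImplicit false

open Finset

namespace Pool.Agent.SharpPoly

/-- Numerator of the quotient of consecutive ratios. -/
def PP (a m t : ℝ) : ℝ := (t + a + 1) * (t + a + 2) * (m ^ 2 - t ^ 2)

/-- Denominator of the quotient of consecutive ratios. -/
def QQ (a d t : ℝ) : ℝ := (d ^ 2 - (t + a) ^ 2) * (t + 1) * (t + 2)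

lemma PP_eq (a m t : ℝ) : PP a m t = (t + 1 + a) * (t + 2 + a) * ((m - t) * (t + m)) := by
  unfold PP
  ring

lemma QQ_eq {a b m d : ℝ} (hd : d = a + 2 * b + m) (t : ℝ) :
    QQ a d t = (m - t + 2 * b) * (m + t + 2 * a + 2 * b) * (t + 1) * (t + 2) := by
  rw [hd]
  unfold QQ
  ring

lemma rearr1 (A B C D E F G I K L : ℝ) {H H' J J' : ℝ} (hH : H = H') (hJ : J = J') :
    A * B * (C * D) * (E * F * (G * H)) * (I * J * (K * L)) =
      A * E * (I * B) * (K * L * C * G) * (F * J' * (D * H')) := by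
  subst hH hJ
  ring

lemma two_step {x y x' y' a c s : ℝ} (hx : 0 < x) (ha : 0 < a) (hc : 0 ≤ c) (hs : 0 < s)
    (hy : y = x + c) (hx' : x' = x + s) (hy' : y' = y + s) :
    (x' + a) * y' * (x * (y + a)) ≤ (x + a) * y * (x' * (y' + a)) := by
  subst hy hx' hy'
  have h : (x + a) * (x + c) * ((x + s) * (x + c + s + a)) -
      (x + s + a) * (x + c + s) * (x * (x + c + a)) =
      a * c * s * (2 * x + c + s + a) := by ring
  have : 0 ≤ a * c * s * (2 * x + c + s + a) := by positivity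
  linarith

lemma two_step_lt {x y x' y' a c s : ℝ} (hx : 0 < x) (ha : 0 < a) (hc : 0 < c) (hs : 0 < s)
    (hy : y = x + c) (hx' : x' = x + s) (hy' : y' = y + s) :
    (x' + a) * y' * (x * (y + a)) < (x + a) * y * (x' * (y' + a)) := by
  subst hy hx' hy'
  have h : (x + a) * (x + c) * ((x + s) * (x + c + s + a)) -
      (x + s + a) * (x + c + s) * (x * (x + c + a)) =
      a * c * s * (2 * x + c + s + a) := by ring
  have : 0 < a * c * s * (2 * x + c + s + a) := by positivity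
  linarith

lemma PQ_lt {a b m d u v : ℝ} (ha : 0 < a) (hb : 0 ≤ b) (hu : 0 ≤ u) (huv : u < v)
    (hv : v + 2 ≤ m) (hd : d = a + 2 * b + m) :
    PP a m v * QQ a d u < PP a m u * QQ a d v := by
  -- the three factors
  have h1 : (v + 1 + a) * (v + m) * ((u + 1) * (u + m + a)) <
      (u + 1 + a) * (u + m) * ((v + 1) * (v + m + a)) :=
    two_step_lt (x := u + 1) (x' := v + 1) (c := m - 1) (s := v - u) (by linarith) ha
      (by linarith) (by linarith) (by ring) (by ring) (by ring)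
  have h2 : (v + 2 + a) * (v + m + a) * ((u + 2) * (u + m + a + a)) ≤
      (u + 2 + a) * (u + m + a) * ((v + 2) * (v + m + a + a)) :=
    two_step (x := u + 2) (x' := v + 2) (c := m + a - 2) (s := v - u) (by linarith) ha
      (by linarith) (by linarith) (by ring) (by ring) (by ring)
  have h3 : (m - v) * (m + v + 2 * a) * ((m - u + 2 * b) * (m + u + 2 * a + 2 * b)) ≤
      (m - u) * (m + u + 2 * a) * ((m - v + 2 * b) * (m + v + 2 * a + 2 * b)) := by
    have h : (m - u) * (m + u + 2 * a) * ((m - v + 2 * b) * (m + v + 2 * a + 2 * b)) -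
        (m - v) * (m + v + 2 * a) * ((m - u + 2 * b) * (m + u + 2 * a + 2 * b)) =
        (v - u) * (u + v + 2 * a) * (4 * b * (m + a) + 4 * b ^ 2) := by ring
    have h' : 0 ≤ (v - u) * (u + v + 2 * a) * (4 * b * (m + a) + 4 * b ^ 2) := by
      have e1 : 0 ≤ v - u := by linarith
      have e2 : 0 ≤ u + v + 2 * a := by linarith
      have e3 : 0 ≤ m + a := by linarith
      positivity
    linarith
  have hmv : 0 < m - v := by linarith
  have hmu : 0 < m - u := by linarith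
  have hm : 0 < m := by linarith
  have hv0 : 0 < v := by linarith
  have k1 : 0 < (v + 1 + a) * (v + m) * ((u + 1) * (u + m + a)) := by positivity
  have k2 : 0 < (v + 2 + a) * (v + m + a) * ((u + 2) * (u + m + a + a)) := by positivity
  have k3 : 0 < (m - v) * (m + v + 2 * a) * ((m - u + 2 * b) * (m + u + 2 * a + 2 * b)) := by
    positivity
  have k : (v + 1 + a) * (v + m) * ((u + 1) * (u + m + a)) *
      ((v + 2 + a) * (v + m + a) * ((u + 2) * (u + m + a + a))) *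
      ((m - v) * (m + v + 2 * a) * ((m - u + 2 * b) * (m + u + 2 * a + 2 * b))) <
      (u + 1 + a) * (u + m) * ((v + 1) * (v + m + a)) *
      ((u + 2 + a) * (u + m + a) * ((v + 2) * (v + m + a + a))) *
      ((m - u) * (m + u + 2 * a) * ((m - v + 2 * b) * (m + v + 2 * a + 2 * b))) := by
    have s1 := mul_lt_mul_of_pos_right (mul_lt_mul_of_pos_right h1 k2) k3
    have s2 := mul_le_mul (mul_le_mul_of_nonneg_left h2 (k1.trans h1).le) h3 k3.le
      (mul_nonneg (k1.trans h1).le (k2.le.trans h2))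
    exact lt_of_lt_of_le s1 s2
  have hK : 0 < (v + m + a) * (v + m + 2 * a) * ((u + m + a) * (u + m + 2 * a)) := by positivity
  have e1 : (v + 1 + a) * (v + m) * ((u + 1) * (u + m + a)) *
      ((v + 2 + a) * (v + m + a) * ((u + 2) * (u + m + a + a))) *
      ((m - v) * (m + v + 2 * a) * ((m - u + 2 * b) * (m + u + 2 * a + 2 * b))) =
      PP a m v * QQ a d u * ((v + m + a) * (v + m + 2 * a) * ((u + m + a) * (u + m + 2 * a))) := by
    rw [PP_eq, QQ_eq hd]
    exact rearr1 _ _ _ _ _ _ _ _ _ _ (by ring) (by ring)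
  have e2 : (u + 1 + a) * (u + m) * ((v + 1) * (v + m + a)) *
      ((u + 2 + a) * (u + m + a) * ((v + 2) * (v + m + a + a))) *
      ((m - u) * (m + u + 2 * a) * ((m - v + 2 * b) * (m + v + 2 * a + 2 * b))) =
      PP a m u * QQ a d v * ((v + m + a) * (v + m + 2 * a) * ((u + m + a) * (u + m + 2 * a))) := by
    rw [PP_eq, QQ_eq hd, mul_comm ((v + m + a) * (v + m + 2 * a))]
    exact rearr1 _ _ _ _ _ _ _ _ _ _ (by ring) (by ring)
  rw [e1, e2] at k
  exact lt_of_mul_lt_mul_right k hK.le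

/-- The ratio of the coefficients. -/
noncomputable def rr (a b M k : ℕ) : ℝ := (lc (a + 2 * b + 2 * M) (b + k) : ℝ) / lc (2 * M) k

lemma rr_pos {a b M k : ℕ} (hM : 0 < M) (hk : k ≤ M) : 0 < rr a b M k := by
  unfold rr
  have h1 : 0 < lc (a + 2 * b + 2 * M) (b + k) := lc_pos (by omega) (by omega)
  have h2 : 0 < lc (2 * M) k := lc_pos (by omega) (by omega)
  positivity

lemma rr_step {a b M k : ℕ} (hk : k + 1 ≤ M) :
    rr a b M (k + 1) * QQ a (a + 2 * b + 2 * M) (2 * M - 2 * (k + 1)) =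
      rr a b M k * PP a (2 * M) (2 * M - 2 * (k + 1)) := by
  obtain ⟨l, rfl⟩ : ∃ l, M = k + 1 + l := ⟨M - (k + 1), by omega⟩
  have h1 := lc_ratio (n := a + 2 * b + 2 * (k + 1 + l)) (k := b + k) (j := a + 2 * l) (by ring)
  have h2 := lc_ratio (n := 2 * (k + 1 + l)) (k := k) (j := 2 * l) (by ring)
  have p1 : 0 < lc (2 * (k + 1 + l)) k := lc_pos (by omega) (by omega)
  have p2 : 0 < lc (2 * (k + 1 + l)) (k + 1) := lc_pos (by omega) (by omega)
  have e0 : b + (k + 1) = b + k + 1 := by ring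
  unfold rr
  rw [e0]
  have h1' : (lc (a + 2 * b + 2 * (k + 1 + l)) (b + k + 1) : ℝ) *
      (((b : ℝ) + k + 1) * (b + k + 1 + (a + 2 * l))) =
      lc (a + 2 * b + 2 * (k + 1 + l)) (b + k) * (((a : ℝ) + 2 * l + 2) * (a + 2 * l + 1)) := by
    exact_mod_cast h1
  have h2' : (lc (2 * (k + 1 + l)) (k + 1) : ℝ) * (((k : ℝ) + 1) * (k + 1 + 2 * l)) =
      lc (2 * (k + 1 + l)) k * ((2 * (l : ℝ) + 2) * (2 * l + 1)) := by
    exact_mod_cast h2
  have p1' : (0 : ℝ) < lc (2 * (k + 1 + l)) k := by exact_mod_cast p1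
  have p2' : (0 : ℝ) < lc (2 * (k + 1 + l)) (k + 1) := by exact_mod_cast p2
  have q1 : QQ (a : ℝ) (a + 2 * b + 2 * ((k + 1 + l : ℕ) : ℝ))
      (2 * ((k + 1 + l : ℕ) : ℝ) - 2 * (k + 1)) =
      4 * (((b : ℝ) + k + 1) * (b + k + 1 + (a + 2 * l))) * ((2 * (l : ℝ) + 2) * (2 * l + 1)) := by
    unfold QQ
    push_cast
    ring
  have q2 : PP (a : ℝ) (2 * ((k + 1 + l : ℕ) : ℝ))
      (2 * ((k + 1 + l : ℕ) : ℝ) - 2 * (k + 1)) =
      4 * (((a : ℝ) + 2 * l + 2) * (a + 2 * l + 1)) * (((k : ℝ) + 1) * (k + 1 + 2 * l)) := by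
    unfold PP
    push_cast
    ring
  rw [q1, q2]
  generalize (lc (a + 2 * b + 2 * (k + 1 + l)) (b + k + 1) : ℝ) = X at *
  generalize (lc (a + 2 * b + 2 * (k + 1 + l)) (b + k) : ℝ) = Y at *
  generalize (lc (2 * (k + 1 + l)) (k + 1) : ℝ) = Z at *
  generalize (lc (2 * (k + 1 + l)) k : ℝ) = T at *
  generalize ((b : ℝ) + k + 1) * (b + k + 1 + (a + 2 * l)) = A at *
  generalize ((a : ℝ) + 2 * l + 2) * (a + 2 * l + 1) = B at *
  generalize ((k : ℝ) + 1) * (k + 1 + 2 * l) = C at *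
  generalize (2 * (l : ℝ) + 2) * (2 * l + 1) = D at *
  rw [div_mul_eq_mul_div, div_mul_eq_mul_div, div_eq_div_iff p2'.ne' p1'.ne']
  calc X * (4 * A * D) * T = 4 * (X * A) * (T * D) := by ring
    _ = 4 * (Y * B) * (Z * C) := by rw [h1', h2']
    _ = Y * (4 * B * C) * Z := by ring

lemma QQ_pos {a b M t : ℝ} (ha : 0 < a) (hb : 0 ≤ b) (ht : 0 ≤ t) (htM : t + 2 ≤ M) :
    0 < QQ a (a + 2 * b + M) t := by
  rw [QQ_eq rfl]
  have h1 : 0 < M - t + 2 * b := by linarith
  have h2 : 0 < M + t + 2 * a + 2 * b := by linarith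
  positivity

lemma rr_dec {a b M w k : ℕ} (ha : 0 < a) (hEq : PP a (2 * M) (2 * w) =
    QQ a (a + 2 * b + 2 * M) (2 * w)) (hk : k + 1 + w < M) :
    rr a b M (k + 1) < rr a b M k := by
  have hs := rr_step (a := a) (b := b) (M := M) (k := k) (by omega)
  have ha' : (0 : ℝ) < a := by exact_mod_cast ha
  have hk' : (k : ℝ) + 1 + w + 1 ≤ M := by exact_mod_cast hk
  have hb' : (0 : ℝ) ≤ b := Nat.cast_nonneg _
  have hk0 : (0 : ℝ) ≤ k := Nat.cast_nonneg _
  have hw0 : (0 : ℝ) ≤ w := Nat.cast_nonneg _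
  have h := PQ_lt (a := a) (b := b) (m := 2 * M) (d := a + 2 * b + 2 * M) (u := 2 * w)
    (v := 2 * M - 2 * (k + 1)) ha' hb' (by linarith) (by linarith) (by linarith) rfl
  have hq0 : 0 < QQ (a : ℝ) (a + 2 * b + 2 * M) (2 * w) :=
    QQ_pos ha' hb' (by linarith) (by linarith)
  have hq : 0 < QQ (a : ℝ) (a + 2 * b + 2 * M) (2 * M - 2 * (k + 1)) :=
    QQ_pos ha' hb' (by linarith) (by linarith)
  rw [hEq, mul_comm (QQ (a : ℝ) (a + 2 * b + 2 * M) (2 * w))] at h
  have h' := lt_of_mul_lt_mul_right h hq0.le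
  have hr : 0 < rr a b M k := rr_pos (by omega) (by omega)
  have h2 := mul_lt_mul_of_pos_left h' hr
  rw [← hs] at h2
  exact lt_of_mul_lt_mul_right h2 hq.le

lemma rr_inc {a b M w k : ℕ} (ha : 0 < a) (hEq : PP a (2 * M) (2 * w) =
    QQ a (a + 2 * b + 2 * M) (2 * w)) (hw : w + 1 ≤ M) (hk : M < k + 1 + w) (hkM : k + 1 ≤ M) :
    rr a b M k < rr a b M (k + 1) := by
  have hs := rr_step (a := a) (b := b) (M := M) (k := k) (by omega)
  have ha' : (0 : ℝ) < a := by exact_mod_cast ha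
  have hk' : (M : ℝ) + 1 ≤ k + 1 + w := by exact_mod_cast hk
  have hkM' : (k : ℝ) + 1 ≤ M := by exact_mod_cast hkM
  have hwM' : (w : ℝ) + 1 ≤ M := by exact_mod_cast hw
  have hb' : (0 : ℝ) ≤ b := Nat.cast_nonneg _
  have hk0 : (0 : ℝ) ≤ k := Nat.cast_nonneg _
  have hw0 : (0 : ℝ) ≤ w := Nat.cast_nonneg _
  have h := PQ_lt (a := a) (b := b) (m := 2 * M) (d := a + 2 * b + 2 * M) (v := 2 * w)
    (u := 2 * M - 2 * (k + 1)) ha' hb' (by linarith) (by linarith) (by linarith) rfl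
  have hq0 : 0 < QQ (a : ℝ) (a + 2 * b + 2 * M) (2 * w) :=
    QQ_pos ha' hb' (by linarith) (by linarith)
  have hq : 0 < QQ (a : ℝ) (a + 2 * b + 2 * M) (2 * M - 2 * (k + 1)) :=
    QQ_pos ha' hb' (by linarith) (by linarith)
  rw [hEq, mul_comm (QQ (a : ℝ) (a + 2 * b + 2 * M) (2 * w))] at h
  have h' := lt_of_mul_lt_mul_right h hq0.le
  have hr : 0 < rr a b M k := rr_pos (by omega) (by omega)
  have h2 := mul_lt_mul_of_pos_left h' hr
  rw [← hs] at h2
  exact lt_of_mul_lt_mul_right h2 hq.le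

lemma rr_eq {a b M w k : ℕ} (ha : 0 < a) (hEq : PP a (2 * M) (2 * w) =
    QQ a (a + 2 * b + 2 * M) (2 * w)) (hk : M = k + 1 + w) :
    rr a b M (k + 1) = rr a b M k := by
  have hs := rr_step (a := a) (b := b) (M := M) (k := k) (by omega)
  have ha' : (0 : ℝ) < a := by exact_mod_cast ha
  have hk' : (M : ℝ) = k + 1 + w := by exact_mod_cast hk
  have hb' : (0 : ℝ) ≤ b := Nat.cast_nonneg _
  have hk0 : (0 : ℝ) ≤ k := Nat.cast_nonneg _
  have hw0 : (0 : ℝ) ≤ w := Nat.cast_nonneg _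
  have hq : 0 < QQ (a : ℝ) (a + 2 * b + 2 * M) (2 * w) :=
    QQ_pos ha' hb' (by linarith) (by linarith)
  have e : (2 * M - 2 * (k + 1) : ℝ) = 2 * w := by rw [hk']; ring
  rw [e, hEq] at hs
  exact mul_right_cancel₀ hq.ne' hs

/-- The ratio is minimal exactly at `k0` and `k0 + 1`. -/
lemma rr_min {a b w k0 : ℕ} (ha : 0 < a) (hEq : PP a (2 * ((k0 + 1 + w : ℕ) : ℝ)) (2 * w) =
    QQ a (a + 2 * b + 2 * ((k0 + 1 + w : ℕ) : ℝ)) (2 * w)) {k : ℕ} (hk : k ≤ k0 + 1 + w) :
    (k = k0 ∨ k = k0 + 1 → rr a b (k0 + 1 + w) k = rr a b (k0 + 1 + w) k0) ∧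
    (¬ (k = k0 ∨ k = k0 + 1) → rr a b (k0 + 1 + w) k0 < rr a b (k0 + 1 + w) k) := by
  have h1 : rr a b (k0 + 1 + w) (k0 + 1) = rr a b (k0 + 1 + w) k0 := rr_eq ha hEq rfl
  have h2 : ∀ i, i + 1 ≤ k0 → rr a b (k0 + 1 + w) k0 < rr a b (k0 + 1 + w) (k0 - (i + 1)) := by
    intro i
    induction i with
    | zero =>
      intro hi
      have := rr_dec (a := a) (b := b) (M := k0 + 1 + w) (w := w) (k := k0 - 1) ha hEq (by omega)
      rwa [show k0 - 1 + 1 = k0 by omega] at this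
    | succ i ih =>
      intro hi
      have h3 := ih (by omega)
      have := rr_dec (a := a) (b := b) (M := k0 + 1 + w) (w := w) (k := k0 - (i + 1 + 1)) ha hEq
        (by omega)
      rw [show k0 - (i + 1 + 1) + 1 = k0 - (i + 1) by omega] at this
      exact h3.trans this
  have h3 : ∀ i, k0 + 1 + (i + 1) ≤ k0 + 1 + w →
      rr a b (k0 + 1 + w) (k0 + 1) < rr a b (k0 + 1 + w) (k0 + 1 + (i + 1)) := by
    intro i
    induction i with
    | zero =>
      intro hi
      exact rr_inc (a := a) (b := b) (M := k0 + 1 + w) (w := w) (k := k0 + 1) ha hEq (by omega)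
        (by omega) (by omega)
    | succ i ih =>
      intro hi
      exact (ih (by omega)).trans (rr_inc (a := a) (b := b) (M := k0 + 1 + w) (w := w)
        (k := k0 + 1 + (i + 1)) ha hEq (by omega) (by omega) (by omega))
  refine ⟨?_, ?_⟩
  · rintro (rfl | rfl)
    · rfl
    · exact h1
  · intro hne
    push Not at hne
    rcases lt_or_ge k k0 with h | h
    · have := h2 (k0 - k - 1) (by omega)
      rwa [show k0 - (k0 - k - 1 + 1) = k by omega] at this
    · have := h3 (k - k0 - 2) (by omega)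
      rw [show k0 + 1 + (k - k0 - 2 + 1) = k by omega, h1] at this
      exact this

end Pool.Agent.SharpPoly
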