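import Pool.Agent.SharpPoly.Poly

/-!
The modified sharp polynomials `f_d - lam x ^ a y ^ b (S_m - 1 - y ^ m)`.
-/

set_option autoImplicit false

open Finset

namespace Pool.Agent.SharpPoly

/-- The coefficient of `x ^ (d - 2 j) y ^ j` in the modified polynomial. -/
noncomputable def cw (a b k0 w j : ℕ) : ℝ :=
  (lc (a + 2 * b + 2 * (k0 + 1 + w)) j : ℝ) -
    rr a b (k0 + 1 + w) k0 *
      (if b ≤ j ∧ j ≤ b + (k0 + 1 + w) then (lc (2 * (k0 + 1 + w)) (j - b) : ℝ) else 0)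

lemma cw_pos {a b k0 w : ℕ} (ha : 0 < a) (hEq : PP a (2 * ((k0 + 1 + w : ℕ) : ℝ)) (2 * w) =
    QQ a (a + 2 * b + 2 * ((k0 + 1 + w : ℕ) : ℝ)) (2 * w)) {j : ℕ}
    (hj : 2 * j ≤ a + 2 * b + 2 * (k0 + 1 + w)) (h : ¬ (j = b + k0 ∨ j = b + k0 + 1)) :
    0 < cw a b k0 w j := by
  unfold cw
  have h0 : 0 < lc (a + 2 * b + 2 * (k0 + 1 + w)) j := lc_pos hj (by omega)
  have h0' : (0 : ℝ) < lc (a + 2 * b + 2 * (k0 + 1 + w)) j := by exact_mod_cast h0
  split_ifs with hb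
  · obtain ⟨k, rfl⟩ : ∃ k, j = b + k := ⟨j - b, by omega⟩
    have hk : k ≤ k0 + 1 + w := by omega
    have h1 := (rr_min (b := b) ha hEq hk).2 (by omega)
    have h2 : 0 < lc (2 * (k0 + 1 + w)) k := lc_pos (by omega) (by omega)
    have h2' : (0 : ℝ) < lc (2 * (k0 + 1 + w)) k := by exact_mod_cast h2
    have h3 : rr a b (k0 + 1 + w) k * lc (2 * (k0 + 1 + w)) k =
        lc (a + 2 * b + 2 * (k0 + 1 + w)) (b + k) := by
      unfold rr
      rw [div_mul_cancel₀ _ h2'.ne']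
    rw [Nat.add_sub_cancel_left]
    have h4 := mul_lt_mul_of_pos_right h1 h2'
    linarith
  · simpa using h0'

lemma cw_zero {a b k0 w : ℕ} (ha : 0 < a) (hEq : PP a (2 * ((k0 + 1 + w : ℕ) : ℝ)) (2 * w) =
    QQ a (a + 2 * b + 2 * ((k0 + 1 + w : ℕ) : ℝ)) (2 * w)) {j : ℕ}
    (h : j = b + k0 ∨ j = b + k0 + 1) : cw a b k0 w j = 0 := by
  obtain ⟨k, rfl⟩ : ∃ k, j = b + k := ⟨j - b, by omega⟩
  have hk : k = k0 ∨ k = k0 + 1 := by omega
  have hk' : k ≤ k0 + 1 + w := by omega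
  unfold cw
  rw [if_pos (by omega), Nat.add_sub_cancel_left]
  have h1 := (rr_min (b := b) ha hEq hk').1 hk
  have h2 : 0 < lc (2 * (k0 + 1 + w)) k := lc_pos (by omega) (by omega)
  have h2' : (0 : ℝ) < lc (2 * (k0 + 1 + w)) k := by exact_mod_cast h2
  have h3 : rr a b (k0 + 1 + w) k * lc (2 * (k0 + 1 + w)) k =
      lc (a + 2 * b + 2 * (k0 + 1 + w)) (b + k) := by
    unfold rr
    rw [div_mul_cancel₀ _ h2'.ne']
  rw [← h1, h3, sub_self]

/-- The exponents of the modified polynomial. -/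
def T1 (c b k0 w : ℕ) : Finset (ℕ × ℕ) :=
  ((range (b + (k0 + 1 + w + 1) + c)).filter fun j => ¬ (j = b + k0 ∨ j = b + k0 + 1)).image
    fun j => (2 * c + 1 + 2 * b + 2 * (k0 + 1 + w) - 2 * j, j)

/-- The new exponents. -/
def T2 (c b k0 w : ℕ) : Finset (ℕ × ℕ) :=
  {(0, 2 * c + 1 + 2 * b + 2 * (k0 + 1 + w)), (2 * c + 1, b), (2 * c + 1, b + 2 * (k0 + 1 + w))}

/-- The weights of the modified polynomial. -/
noncomputable def Wt (c b k0 w : ℕ) (t : ℕ × ℕ) : ℝ :=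
  if t.1 = 0 then 1 else
    if t.1 + 2 * t.2 = 2 * c + 1 + 2 * b + 2 * (k0 + 1 + w) then cw (2 * c + 1) b k0 w t.2
    else rr (2 * c + 1) b (k0 + 1 + w) k0

lemma T_disj (c b k0 w : ℕ) : Disjoint (T1 c b k0 w) (T2 c b k0 w) := by
  rw [Finset.disjoint_left]
  intro t h1 h2
  unfold T1 at h1
  unfold T2 at h2
  rw [Finset.mem_image] at h1
  obtain ⟨j, hj, rfl⟩ := h1
  rw [Finset.mem_filter, Finset.mem_range] at hj
  simp only [Finset.mem_insert, Finset.mem_singleton, Prod.mk.injEq] at h2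
  omega

lemma T1_card (c b k0 w : ℕ) : (T1 c b k0 w).card + 2 = b + (k0 + 1 + w + 1) + c := by
  unfold T1
  rw [Finset.card_image_of_injective]
  · have h := Finset.card_filter_add_card_filter_not
      (s := range (b + (k0 + 1 + w + 1) + c)) (fun j => j = b + k0 ∨ j = b + k0 + 1)
    have h2 : (range (b + (k0 + 1 + w + 1) + c)).filter (fun j => j = b + k0 ∨ j = b + k0 + 1) =
        {b + k0, b + k0 + 1} := by
      ext j
      simp only [Finset.mem_filter, Finset.mem_range, Finset.mem_insert, Finset.mem_singleton]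
      omega
    rw [h2, Finset.card_pair (by omega), Finset.card_range] at h
    omega
  · intro i j h
    simp only [Prod.mk.injEq] at h
    exact h.2

lemma T2_card (c b k0 w : ℕ) : (T2 c b k0 w).card = 3 := by
  unfold T2
  rw [Finset.card_insert_of_notMem, Finset.card_pair]
  · simp only [ne_eq, Prod.mk.injEq, not_and]
    omega
  · simp only [Finset.mem_insert, Finset.mem_singleton, Prod.mk.injEq]
    omega

lemma T_card (c b k0 w : ℕ) : 2 * (T1 c b k0 w ∪ T2 c b k0 w).card =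
    2 * c + 1 + 2 * b + 2 * (k0 + 1 + w) + 3 := by
  rw [Finset.card_union_of_disjoint (T_disj c b k0 w), T2_card]
  have := T1_card c b k0 w
  omega

lemma Wt_pos {c b k0 w : ℕ} (hEq : PP ((2 * c + 1 : ℕ) : ℝ) (2 * ((k0 + 1 + w : ℕ) : ℝ)) (2 * w) =
    QQ ((2 * c + 1 : ℕ) : ℝ) (((2 * c + 1 : ℕ) : ℝ) + 2 * b + 2 * ((k0 + 1 + w : ℕ) : ℝ)) (2 * w))
    {t : ℕ × ℕ} (ht : t ∈ T1 c b k0 w ∪ T2 c b k0 w) : 0 < Wt c b k0 w t := by
  unfold Wt
  split_ifs with h1 h2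
  · exact zero_lt_one
  · rw [Finset.mem_union] at ht
    rcases ht with ht | ht
    · unfold T1 at ht
      rw [Finset.mem_image] at ht
      obtain ⟨j, hj, rfl⟩ := ht
      rw [Finset.mem_filter, Finset.mem_range] at hj
      exact cw_pos (by omega) hEq (by omega) hj.2
    · unfold T2 at ht
      simp only [Finset.mem_insert, Finset.mem_singleton] at ht
      rcases ht with rfl | rfl | rfl
      · exact absurd rfl h1
      · simp only at h2
        omega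
      · simp only at h2
        omega
  · exact rr_pos (by omega) (by omega)

lemma T_degree {c b k0 w : ℕ} {t : ℕ × ℕ} (ht : t ∈ T1 c b k0 w ∪ T2 c b k0 w) :
    t.1 + t.2 ≤ 2 * c + 1 + 2 * b + 2 * (k0 + 1 + w) := by
  rw [Finset.mem_union] at ht
  rcases ht with ht | ht
  · unfold T1 at ht
    rw [Finset.mem_image] at ht
    obtain ⟨j, hj, rfl⟩ := ht
    rw [Finset.mem_filter, Finset.mem_range] at hj
    simp only
    omega
  · unfold T2 at ht
    simp only [Finset.mem_insert, Finset.mem_singleton] at ht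
    rcases ht with rfl | rfl | rfl
    · simp only
      omega
    · simp only
      omega
    · simp only
      omega

/-- The value of the modified polynomial. -/
lemma eval_mod {c b k0 w : ℕ} (hEq : PP ((2 * c + 1 : ℕ) : ℝ) (2 * ((k0 + 1 + w : ℕ) : ℝ))
    (2 * w) = QQ ((2 * c + 1 : ℕ) : ℝ) (((2 * c + 1 : ℕ) : ℝ) + 2 * b +
      2 * ((k0 + 1 + w : ℕ) : ℝ)) (2 * w)) (x y : ℝ) :
    MvPolynomial.eval ![x, y] (poly (T1 c b k0 w ∪ T2 c b k0 w) (Wt c b k0 w)) =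
      SS (2 * c + 1 + 2 * b + 2 * (k0 + 1 + w)) x y +
        y ^ (2 * c + 1 + 2 * b + 2 * (k0 + 1 + w)) -
        rr (2 * c + 1) b (k0 + 1 + w) k0 * (x ^ (2 * c + 1) * y ^ b) *
          (SS (2 * (k0 + 1 + w)) x y - 1 - y ^ (2 * (k0 + 1 + w))) := by
  rw [eval_poly, Finset.sum_union (T_disj c b k0 w)]
  -- the second part
  have e2 : ∑ t ∈ T2 c b k0 w, Wt c b k0 w t * (x ^ t.1 * y ^ t.2) =
      y ^ (2 * c + 1 + 2 * b + 2 * (k0 + 1 + w)) +
        (rr (2 * c + 1) b (k0 + 1 + w) k0 * (x ^ (2 * c + 1) * y ^ b) +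
        rr (2 * c + 1) b (k0 + 1 + w) k0 * (x ^ (2 * c + 1) * y ^ (b + 2 * (k0 + 1 + w)))) := by
    unfold T2
    rw [Finset.sum_insert, Finset.sum_pair]
    · unfold Wt
      simp only
      rw [if_pos trivial, if_neg (by omega), if_neg (by omega), if_neg (by omega),
        if_neg (by omega), pow_zero, one_mul, one_mul]
    · simp only [ne_eq, Prod.mk.injEq, not_and]
      omega
    · simp only [Finset.mem_insert, Finset.mem_singleton, Prod.mk.injEq]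
      omega
  -- the first part
  have e1 : ∑ t ∈ T1 c b k0 w, Wt c b k0 w t * (x ^ t.1 * y ^ t.2) =
      ∑ j ∈ range (b + (k0 + 1 + w + 1) + c), cw (2 * c + 1) b k0 w j *
        (x ^ (2 * c + 1 + 2 * b + 2 * (k0 + 1 + w) - 2 * j) * y ^ j) := by
    unfold T1
    rw [Finset.sum_image (by
      intro i _ j _ h
      simp only [Prod.mk.injEq] at h
      exact h.2)]
    rw [Finset.sum_filter]
    refine Finset.sum_congr rfl fun j hj => ?_
    rw [Finset.mem_range] at hj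
    by_cases h : j = b + k0 ∨ j = b + k0 + 1
    · rw [if_neg (not_not.2 h), cw_zero (by omega) hEq h, zero_mul]
    · rw [if_pos h]
      unfold Wt
      simp only
      rw [if_neg (by omega), if_pos (by omega)]
  have e3 : ∑ j ∈ range (b + (k0 + 1 + w + 1) + c), cw (2 * c + 1) b k0 w j *
        (x ^ (2 * c + 1 + 2 * b + 2 * (k0 + 1 + w) - 2 * j) * y ^ j) =
      SS (2 * c + 1 + 2 * b + 2 * (k0 + 1 + w)) x y - rr (2 * c + 1) b (k0 + 1 + w) k0 *
        ∑ j ∈ range (b + (k0 + 1 + w + 1) + c),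
          (if b ≤ j ∧ j ≤ b + (k0 + 1 + w) then (lc (2 * (k0 + 1 + w)) (j - b) : ℝ) else 0) *
          (x ^ (2 * c + 1 + 2 * b + 2 * (k0 + 1 + w) - 2 * j) * y ^ j) := by
    rw [SS_trunc (N := b + (k0 + 1 + w + 1) + c) (by omega) (by omega), Finset.mul_sum,
      ← Finset.sum_sub_distrib]
    refine Finset.sum_congr rfl fun j _ => ?_
    unfold cw
    ring
  have e4 : ∑ j ∈ range (b + (k0 + 1 + w + 1) + c),
          (if b ≤ j ∧ j ≤ b + (k0 + 1 + w) then (lc (2 * (k0 + 1 + w)) (j - b) : ℝ) else 0) *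
          (x ^ (2 * c + 1 + 2 * b + 2 * (k0 + 1 + w) - 2 * j) * y ^ j) =
      x ^ (2 * c + 1) * y ^ b * SS (2 * (k0 + 1 + w)) x y := by
    rw [Finset.sum_range_add, Finset.sum_range_add]
    have z1 : ∑ j ∈ range b,
          (if b ≤ j ∧ j ≤ b + (k0 + 1 + w) then (lc (2 * (k0 + 1 + w)) (j - b) : ℝ) else 0) *
          (x ^ (2 * c + 1 + 2 * b + 2 * (k0 + 1 + w) - 2 * j) * y ^ j) = 0 := by
      refine Finset.sum_eq_zero fun j hj => ?_
      rw [Finset.mem_range] at hj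
      rw [if_neg (by omega), zero_mul]
    have z2 : ∑ j ∈ range c,
          (if b ≤ b + (k0 + 1 + w + 1) + j ∧ b + (k0 + 1 + w + 1) + j ≤ b + (k0 + 1 + w) then
            (lc (2 * (k0 + 1 + w)) (b + (k0 + 1 + w + 1) + j - b) : ℝ) else 0) *
          (x ^ (2 * c + 1 + 2 * b + 2 * (k0 + 1 + w) - 2 * (b + (k0 + 1 + w + 1) + j)) *
            y ^ (b + (k0 + 1 + w + 1) + j)) = 0 := by
      refine Finset.sum_eq_zero fun j hj => ?_
      rw [if_neg (by omega), zero_mul]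
    rw [z1, z2, SS_trunc (n := 2 * (k0 + 1 + w)) (N := k0 + 1 + w + 1) (by omega) (by omega),
      Finset.mul_sum, zero_add, add_zero]
    refine Finset.sum_congr rfl fun k hk => ?_
    rw [Finset.mem_range] at hk
    rw [if_pos (by omega), Nat.add_sub_cancel_left]
    have : 2 * c + 1 + 2 * b + 2 * (k0 + 1 + w) - 2 * (b + k) =
        (2 * c + 1) + (2 * (k0 + 1 + w) - 2 * k) := by omega
    rw [this, pow_add, pow_add y b k]
    ring
  rw [e1, e2, e3, e4, pow_add y b (2 * (k0 + 1 + w))]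
  ring

/-- The modified polynomial is sharp. -/
lemma mod_sharp {c b k0 w : ℕ} (hEq : PP ((2 * c + 1 : ℕ) : ℝ) (2 * ((k0 + 1 + w : ℕ) : ℝ))
    (2 * w) = QQ ((2 * c + 1 : ℕ) : ℝ) (((2 * c + 1 : ℕ) : ℝ) + 2 * b +
      2 * ((k0 + 1 + w : ℕ) : ℝ)) (2 * w)) :
    IsSharp (2 * c + 1 + 2 * b + 2 * (k0 + 1 + w))
      (poly (T1 c b k0 w ∪ T2 c b k0 w) (Wt c b k0 w)) := by
  have hW : ∀ t ∈ T1 c b k0 w ∪ T2 c b k0 w, Wt c b k0 w t ≠ 0 :=
    fun t ht => (Wt_pos hEq ht).ne'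
  refine ⟨coeff_poly_nonneg fun t ht => (Wt_pos hEq ht).le, ?_, ?_, ?_⟩
  · intro x y hxy
    have e1 : (-y) ^ (2 * (k0 + 1 + w)) = y ^ (2 * (k0 + 1 + w)) :=
      Even.neg_pow ⟨k0 + 1 + w, by ring⟩ y
    have e2 : (-y) ^ (2 * c + 1 + 2 * b + 2 * (k0 + 1 + w)) =
        -y ^ (2 * c + 1 + 2 * b + 2 * (k0 + 1 + w)) :=
      Odd.neg_pow ⟨c + b + (k0 + 1 + w), by ring⟩ y
    rw [eval_mod hEq, SS_line hxy, SS_line hxy, e1, e2]
    ring
  · rw [card_support_poly hW]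
    exact T_card c b k0 w
  · refine totalDegree_poly hW (fun t ht => T_degree ht) ?_
    rw [Finset.mem_union]
    right
    unfold T2
    simp

/-- The modified polynomial is not `f_d(x, y)`. -/
lemma mod_ne {c b k0 w : ℕ} (hEq : PP ((2 * c + 1 : ℕ) : ℝ) (2 * ((k0 + 1 + w : ℕ) : ℝ))
    (2 * w) = QQ ((2 * c + 1 : ℕ) : ℝ) (((2 * c + 1 : ℕ) : ℝ) + 2 * b +
      2 * ((k0 + 1 + w : ℕ) : ℝ)) (2 * w)) :
    ¬ ∀ x y : ℝ, 0 ≤ x ^ 2 + 4 * y →
      MvPolynomial.eval ![x, y] (poly (T1 c b k0 w ∪ T2 c b k0 w) (Wt c b k0 w)) =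
        fval (2 * c + 1 + 2 * b + 2 * (k0 + 1 + w)) x y := by
  intro h
  have h1 := h 2 1 (by norm_num)
  rw [eval_mod hEq, fval_eq _ (by norm_num)] at h1
  have hr : 0 < rr (2 * c + 1) b (k0 + 1 + w) k0 := rr_pos (by omega) (by omega)
  have hS : 4 ≤ SS (2 * (k0 + 1 + w)) 2 1 := by
    unfold SS
    have h0 : (lc (2 * (k0 + 1 + w)) 0 : ℝ) * ((2 : ℝ) ^ (2 * (k0 + 1 + w) - 2 * 0) * 1 ^ 0) ≤
        ∑ k ∈ range (2 * (k0 + 1 + w) + 1), (lc (2 * (k0 + 1 + w)) k : ℝ) *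
          ((2 : ℝ) ^ (2 * (k0 + 1 + w) - 2 * k) * 1 ^ k) :=
      Finset.single_le_sum (f := fun k => (lc (2 * (k0 + 1 + w)) k : ℝ) *
          ((2 : ℝ) ^ (2 * (k0 + 1 + w) - 2 * k) * 1 ^ k)) (fun k _ => by positivity)
        (Finset.mem_range.2 (by omega))
    have h2 : lc (2 * (k0 + 1 + w)) 0 = 1 := by
      have : 2 * (k0 + 1 + w) = (2 * (k0 + w) + 1) + 1 := by ring
      rw [this]
      exact lc_zero _
    rw [h2] at h0
    have h3 : (4 : ℝ) ≤ 2 ^ (2 * (k0 + 1 + w) - 2 * 0) := by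
      calc (4 : ℝ) = 2 ^ 2 := by norm_num
        _ ≤ 2 ^ (2 * (k0 + 1 + w) - 2 * 0) := pow_le_pow_right₀ (by norm_num) (by omega)
    simp only [Nat.cast_one, one_mul, one_pow, mul_one] at h0 ⊢
    linarith
  have h4 : 0 < rr (2 * c + 1) b (k0 + 1 + w) k0 * ((2 : ℝ) ^ (2 * c + 1) * 1 ^ b) *
      (SS (2 * (k0 + 1 + w)) 2 1 - 1 - 1 ^ (2 * (k0 + 1 + w))) := by
    have h5 : 0 < SS (2 * (k0 + 1 + w)) 2 1 - 1 - 1 ^ (2 * (k0 + 1 + w)) := by
      rw [one_pow]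
      linarith
    positivity
  linarith

/-- The modified polynomial is not `f_d(y, x)`. -/
lemma mod_ne' {c b k0 w : ℕ} (hEq : PP ((2 * c + 1 : ℕ) : ℝ) (2 * ((k0 + 1 + w : ℕ) : ℝ))
    (2 * w) = QQ ((2 * c + 1 : ℕ) : ℝ) (((2 * c + 1 : ℕ) : ℝ) + 2 * b +
      2 * ((k0 + 1 + w : ℕ) : ℝ)) (2 * w)) :
    ¬ ∀ x y : ℝ, 0 ≤ x ^ 2 + 4 * y →
      MvPolynomial.eval ![y, x] (poly (T1 c b k0 w ∪ T2 c b k0 w) (Wt c b k0 w)) =
        fval (2 * c + 1 + 2 * b + 2 * (k0 + 1 + w)) x y := by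
  intro h
  have hW : ∀ t ∈ T1 c b k0 w ∪ T2 c b k0 w, Wt c b k0 w t ≠ 0 :=
    fun t ht => (Wt_pos hEq ht).ne'
  have hT : ∀ i j, (i, j) ∈ T2 c b k0 w →
      (poly (T1 c b k0 w ∪ T2 c b k0 w) (Wt c b k0 w)).coeff (expo i j) ≠ 0 := by
    intro i j hij
    have hm : (i, j) ∈ T1 c b k0 w ∪ T2 c b k0 w := Finset.mem_union_right _ hij
    rw [coeff_poly, if_pos hm]
    exact hW _ hm
  have hA := hT (2 * c + 1) b (by unfold T2; simp)
  have hB := hT (2 * c + 1) (b + 2 * (k0 + 1 + w)) (by unfold T2; simp)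
  obtain ⟨d, hd⟩ : ∃ d, d = 2 * c + 1 + 2 * b + 2 * (k0 + 1 + w) := ⟨_, rfl⟩
  obtain ⟨N, hN⟩ : ∃ N, N = b + (k0 + 1 + w + 1) + c := ⟨_, rfl⟩
  rw [← hd] at h
  have hdisj : Disjoint ((range N).image fun j => (j, d - 2 * j)) {(d, 0)} := by
    rw [Finset.disjoint_left]
    intro t h1 h2
    rw [Finset.mem_image] at h1
    obtain ⟨j, hj, rfl⟩ := h1
    rw [Finset.mem_range] at hj
    simp only [Finset.mem_singleton, Prod.mk.injEq] at h2
    omega
  have hF : ∀ x y : ℝ, MvPolynomial.eval ![y, x]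
      (poly (((range N).image fun j => (j, d - 2 * j)) ∪ {(d, 0)})
        (fun t => if t.1 = d then 1 else (lc d t.1 : ℝ))) = SS d x y + y ^ d := by
    intro x y
    rw [eval_poly, Finset.sum_union hdisj, Finset.sum_singleton, Finset.sum_image (by
      intro i _ j _ h
      simp only [Prod.mk.injEq] at h
      exact h.1), SS_trunc (N := N) (by omega) (by omega)]
    congr 1
    · refine Finset.sum_congr rfl fun j hj => ?_
      rw [Finset.mem_range] at hj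
      simp only
      rw [if_neg (by omega)]
      ring
    · simp
  have hp : poly (T1 c b k0 w ∪ T2 c b k0 w) (Wt c b k0 w) =
      poly (((range N).image fun j => (j, d - 2 * j)) ∪ {(d, 0)})
        (fun t => if t.1 = d then 1 else (lc d t.1 : ℝ)) := by
    apply MvPolynomial.funext_set (fun _ => Set.Ici (0 : ℝ)) (fun _ => Set.Ici_infinite 0)
    intro z hz
    have h0 : 0 ≤ z 0 := hz 0 trivial
    have h1 : 0 ≤ z 1 := hz 1 trivial
    have ez : z = ![z 0, z 1] := by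
      ext i
      fin_cases i
      · rfl
      · rfl
    rw [ez, h (z 1) (z 0) (by positivity), hF, fval_eq _ (by positivity)]
  rw [hp, coeff_poly] at hA hB
  have mA : (2 * c + 1, b) ∈ ((range N).image fun j => (j, d - 2 * j)) ∪ {(d, 0)} := by
    by_contra hn
    rw [if_neg hn] at hA
    exact hA rfl
  have mB : (2 * c + 1, b + 2 * (k0 + 1 + w)) ∈
      ((range N).image fun j => (j, d - 2 * j)) ∪ {(d, 0)} := by
    by_contra hn
    rw [if_neg hn] at hB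
    exact hB rfl
  simp only [Finset.mem_union, Finset.mem_image, Finset.mem_range, Finset.mem_singleton,
    Prod.mk.injEq] at mA mB
  rcases mA with ⟨i, -, h1, h2⟩ | ⟨h1, -⟩
  · rcases mB with ⟨j, -, h3, h4⟩ | ⟨h3, -⟩
    · omega
    · omega
  · omega

/-- The criterion. -/
theorem uniqFails_of {a b m f d : ℕ} (ha : Odd a) (hm : Even m) (hf : Even f) (hfm : f + 2 ≤ m)
    (hd : d = a + 2 * b + m)
    (hEq : ((d : ℤ) ^ 2 - (f + a) ^ 2) * ((f + 1) * (f + 2)) =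
      ((m : ℤ) ^ 2 - f ^ 2) * ((f + a + 1) * (f + a + 2))) : UniqFails d := by
  obtain ⟨c, rfl⟩ := ha
  obtain ⟨M, rfl⟩ := hm
  obtain ⟨w, rfl⟩ := hf
  obtain ⟨k0, rfl⟩ : ∃ k0, M = k0 + 1 + w := ⟨M - 1 - w, by omega⟩
  have hd' : d = 2 * c + 1 + 2 * b + 2 * (k0 + 1 + w) := by rw [hd]; ring
  subst hd'
  have hEq' : PP ((2 * c + 1 : ℕ) : ℝ) (2 * ((k0 + 1 + w : ℕ) : ℝ)) (2 * w) =
      QQ ((2 * c + 1 : ℕ) : ℝ) (((2 * c + 1 : ℕ) : ℝ) + 2 * b +
        2 * ((k0 + 1 + w : ℕ) : ℝ)) (2 * w) := by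
    have h := congrArg (fun z : ℤ => (z : ℝ)) hEq
    push_cast at h ⊢
    unfold PP QQ
    linarith
  exact ⟨_, mod_sharp hEq', mod_ne hEq', mod_ne' hEq'⟩

end Pool.Agent.SharpPoly
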