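import Pool.Agent.SharpPoly.Min

/-!
Polynomials in two variables given by a finite set of exponents and weights; the modified sharp
polynomials.
-/

set_option autoImplicit false

open Finset

namespace Pool.Agent.SharpPoly

/-- `p` is a sharp polynomial of degree `d`. -/
def IsSharp (d : ℕ) (p : MvPolynomial (Fin 2) ℝ) : Prop :=
  (∀ s, 0 ≤ p.coeff s) ∧ (∀ x y : ℝ, x + y = 1 → MvPolynomial.eval ![x, y] p = 1) ∧
    2 * p.support.card = d + 3 ∧ p.totalDegree = d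

/-- The value `f_d(x, y)`, for `x ^ 2 + 4 y ≥ 0`. -/
noncomputable def fval (d : ℕ) (x y : ℝ) : ℝ :=
  ((x + Real.sqrt (x ^ 2 + 4 * y)) / 2) ^ d + ((x - Real.sqrt (x ^ 2 + 4 * y)) / 2) ^ d + y ^ d

/-- Some sharp polynomial of degree `d` is neither `f_d(x, y)` nor `f_d(y, x)`. -/
def UniqFails (d : ℕ) : Prop :=
  ∃ p : MvPolynomial (Fin 2) ℝ, IsSharp d p ∧
    (¬ ∀ x y : ℝ, 0 ≤ x ^ 2 + 4 * y → MvPolynomial.eval ![x, y] p = fval d x y) ∧
    (¬ ∀ x y : ℝ, 0 ≤ x ^ 2 + 4 * y → MvPolynomial.eval ![y, x] p = fval d x y)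

/-- The exponent `x ^ i y ^ j`. -/
noncomputable def expo (i j : ℕ) : Fin 2 →₀ ℕ := Finsupp.single 0 i + Finsupp.single 1 j

lemma expo_zero (i j : ℕ) : expo i j 0 = i := by
  simp [expo]

lemma expo_one (i j : ℕ) : expo i j 1 = j := by
  simp [expo]

lemma expo_inj {i j k l : ℕ} : expo i j = expo k l ↔ i = k ∧ j = l := by
  constructor
  · intro h
    have h0 := congrArg (fun s => s 0) h
    have h1 := congrArg (fun s => s 1) h
    simp only [expo_zero, expo_one] at h0 h1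
    exact ⟨h0, h1⟩
  · rintro ⟨rfl, rfl⟩
    rfl

lemma eq_expo (s : Fin 2 →₀ ℕ) : s = expo (s 0) (s 1) := by
  ext i
  fin_cases i
  · simp [expo]
  · simp [expo]

lemma expo_sum (i j : ℕ) : ((expo i j).sum fun _ e => e) = i + j := by
  rw [Finsupp.sum_fintype _ _ (fun _ => rfl)]
  rw [Fin.sum_univ_two, expo_zero, expo_one]

/-- The polynomial with exponents in `T` and coefficients `W`. -/
noncomputable def poly (T : Finset (ℕ × ℕ)) (W : ℕ × ℕ → ℝ) : MvPolynomial (Fin 2) ℝ :=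
  ∑ t ∈ T, MvPolynomial.monomial (expo t.1 t.2) (W t)

lemma coeff_poly (T : Finset (ℕ × ℕ)) (W : ℕ × ℕ → ℝ) (i j : ℕ) :
    (poly T W).coeff (expo i j) = if (i, j) ∈ T then W (i, j) else 0 := by
  unfold poly
  rw [MvPolynomial.coeff_sum]
  have h : ∀ t ∈ T, (MvPolynomial.monomial (expo t.1 t.2) (W t)).coeff (expo i j) =
      if (i, j) = t then W t else 0 := by
    intro t _
    rw [MvPolynomial.coeff_monomial]
    by_cases ht : (i, j) = t
    · subst ht
      simp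
    · rw [if_neg ht, if_neg]
      intro h
      rw [expo_inj] at h
      exact ht (Prod.ext h.1.symm h.2.symm)
  rw [Finset.sum_congr rfl h, Finset.sum_ite_eq]

lemma mem_support_poly {T : Finset (ℕ × ℕ)} {W : ℕ × ℕ → ℝ} (hW : ∀ t ∈ T, W t ≠ 0)
    {i j : ℕ} : expo i j ∈ (poly T W).support ↔ (i, j) ∈ T := by
  rw [MvPolynomial.mem_support_iff, coeff_poly]
  constructor
  · intro h
    by_contra hn
    rw [if_neg hn] at h
    exact h rfl
  · intro h
    rw [if_pos h]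
    exact hW _ h

lemma support_poly {T : Finset (ℕ × ℕ)} {W : ℕ × ℕ → ℝ} (hW : ∀ t ∈ T, W t ≠ 0) :
    (poly T W).support = T.image fun t => expo t.1 t.2 := by
  ext s
  rw [Finset.mem_image]
  constructor
  · intro h
    rw [eq_expo s, mem_support_poly hW] at h
    exact ⟨_, h, (eq_expo s).symm⟩
  · rintro ⟨t, ht, rfl⟩
    exact (mem_support_poly hW).2 ht

lemma card_support_poly {T : Finset (ℕ × ℕ)} {W : ℕ × ℕ → ℝ} (hW : ∀ t ∈ T, W t ≠ 0) :
    (poly T W).support.card = T.card := by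
  rw [support_poly hW, Finset.card_image_of_injective]
  intro t u h
  simp only [expo_inj] at h
  exact Prod.ext h.1 h.2

lemma coeff_poly_nonneg {T : Finset (ℕ × ℕ)} {W : ℕ × ℕ → ℝ} (hW : ∀ t ∈ T, 0 ≤ W t)
    (s : Fin 2 →₀ ℕ) : 0 ≤ (poly T W).coeff s := by
  rw [eq_expo s, coeff_poly]
  split_ifs with h
  · exact hW _ h
  · exact le_rfl

lemma totalDegree_poly {T : Finset (ℕ × ℕ)} {W : ℕ × ℕ → ℝ} {d : ℕ} (hW : ∀ t ∈ T, W t ≠ 0)
    (h1 : ∀ t ∈ T, t.1 + t.2 ≤ d) (h2 : (0, d) ∈ T) : (poly T W).totalDegree = d := by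
  apply le_antisymm
  · unfold MvPolynomial.totalDegree
    refine Finset.sup_le fun s hs => ?_
    rw [support_poly hW, Finset.mem_image] at hs
    obtain ⟨t, ht, rfl⟩ := hs
    rw [expo_sum]
    exact h1 t ht
  · have := MvPolynomial.le_totalDegree ((mem_support_poly hW).2 h2)
    rw [expo_sum] at this
    omega

lemma eval_poly (T : Finset (ℕ × ℕ)) (W : ℕ × ℕ → ℝ) (x y : ℝ) :
    MvPolynomial.eval ![x, y] (poly T W) = ∑ t ∈ T, W t * (x ^ t.1 * y ^ t.2) := by
  unfold poly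
  rw [map_sum]
  refine Finset.sum_congr rfl fun t _ => ?_
  rw [MvPolynomial.eval_monomial, Finsupp.prod_fintype _ _ (fun _ => pow_zero _),
    Fin.prod_univ_two, expo_zero, expo_one]
  simp

/-- Truncation of the power sum. -/
lemma SS_trunc {n N : ℕ} (hN : n < 2 * N) (hN' : N ≤ n + 1) (x y : ℝ) :
    SS n x y = ∑ k ∈ range N, (lc n k : ℝ) * (x ^ (n - 2 * k) * y ^ k) := by
  unfold SS
  symm
  apply Finset.sum_subset
  · intro k hk
    rw [Finset.mem_range] at hk ⊢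
    omega
  · intro k _ hk
    rw [Finset.mem_range, not_lt] at hk
    rw [lc_eq_zero n k (by omega)]
    simp

/-- The function `f_d` is a power sum plus `y ^ d`. -/
lemma fval_eq (d : ℕ) {x y : ℝ} (h : 0 ≤ x ^ 2 + 4 * y) : fval d x y = SS d x y + y ^ d := by
  unfold fval
  have hs := Real.sq_sqrt h
  rw [SS_eq (x := x) (y := y) (u := (x + Real.sqrt (x ^ 2 + 4 * y)) / 2)
    (v := (x - Real.sqrt (x ^ 2 + 4 * y)) / 2) (by ring) (by
      have : ((x + Real.sqrt (x ^ 2 + 4 * y)) / 2) ^ 2 =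
        (x ^ 2 + 2 * x * Real.sqrt (x ^ 2 + 4 * y) + Real.sqrt (x ^ 2 + 4 * y) ^ 2) / 4 := by ring
      rw [this, hs]; ring) (by
      have : ((x - Real.sqrt (x ^ 2 + 4 * y)) / 2) ^ 2 =
        (x ^ 2 - 2 * x * Real.sqrt (x ^ 2 + 4 * y) + Real.sqrt (x ^ 2 + 4 * y) ^ 2) / 4 := by ring
      rw [this, hs]; ring)]

end Pool.Agent.SharpPoly
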